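import Pool.Agent.Helper38.FD.Twist
import Pool.Agent.Helper13.RL.GOO1

/-! PPB: B_GL1, first part: Galois theory. -/

set_option autoImplicit false

namespace Pool.Agent.Helper48.PPB

open Module
open Pool.Agent.Helper38.FD
open Pool.Agent.Helper13.RL (res_one_iff res_surj finrank_sup_dvd)

variable {K Ω k : Type} [Field K] [Field Ω] [Algebra K Ω] [NormedField k]

/-- The degree of a compositum of two Galois extensions of `p`-power degree. -/
theorem finrank_sup_pow [Normal K Ω] {p : ℕ} (hp : p.Prime) {J E : IntermediateField K Ω}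
    [IsGalois K J] [IsGalois K E] (hJ : ∃ l : ℕ, finrank K J = p ^ l)
    (hE : ∃ l : ℕ, finrank K E = p ^ l) :
    ∃ n : ℕ, finrank K (J ⊔ E : IntermediateField K Ω) = p ^ n := by
  obtain ⟨a, ha⟩ := hJ
  obtain ⟨b, hb⟩ := hE
  have h := finrank_sup_dvd (L := J) (N := E) (by rw [ha]; exact pow_pos hp.pos _)
    (by rw [hb]; exact pow_pos hp.pos _) inferInstance inferInstance
  rw [ha, hb, ← pow_add] at h
  obtain ⟨n, -, hn⟩ := (Nat.dvd_prime_pow hp).1 h
  exact ⟨n, hn⟩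

/-- The degree of `L ⊔ F₁` if `ψ₁` cuts out `F₁` and has order `p` on `Gal(Ω/L)`. -/
theorem finrank_sup_cut [IsGalois K Ω] {p n : ℕ} (hp : p.Prime) {L F₁ : IntermediateField K Ω}
    (hL : finrank K L = p ^ n) (ψ₁ : Chr K Ω k) (hF₁ : CutsOut ψ₁ F₁)
    (h1 : ∀ g : Ω ≃ₐ[K] Ω, (∀ x ∈ L, g x = x) → ψ₁ g ^ p = 1)
    (h2 : ∃ g : Ω ≃ₐ[K] Ω, (∀ x ∈ L, g x = x) ∧ ψ₁ g ≠ 1) :
    finrank K (L ⊔ F₁ : IntermediateField K Ω) = p ^ (n + 1) := by
  have hne : NeZero p := ⟨hp.ne_zero⟩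
  rw [IntermediateField.finrank_eq_fixingSubgroup_index, IntermediateField.fixingSubgroup_sup,
    ← ker_eq hF₁, inf_comm, ← Subgroup.relIndex_mul_index (inf_le_right),
    Subgroup.inf_relIndex_right, ← IntermediateField.finrank_eq_fixingSubgroup_index, hL,
    Subgroup.relIndex_ker, pow_succ']
  congr 1
  obtain ⟨g, hg, hg1⟩ := h2
  have hroot : (L.fixingSubgroup.map ψ₁) = Subgroup.zpowers (ψ₁ g) := by
    have hgp : IsPrimitiveRoot (ψ₁ g) p := by
      have e := orderOf_eq_prime (h1 g hg) hg1 (hp := ⟨hp⟩)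
      rw [← e]
      exact IsPrimitiveRoot.orderOf _
    apply le_antisymm
    · rintro _ ⟨f, hf, rfl⟩
      rw [hgp.zpowers_eq, mem_rootsOfUnity]
      exact h1 f ((IntermediateField.mem_fixingSubgroup_iff _ _).1 hf)
    · rw [Subgroup.zpowers_le]
      exact ⟨g, (IntermediateField.mem_fixingSubgroup_iff _ _).2 hg, rfl⟩
  rw [hroot, Nat.card_zpowers]
  exact orderOf_eq_prime (h1 g hg) hg1 (hp := ⟨hp⟩)

/-- An automorphism of `F` which is trivial on `A` and `B` is trivial, if `F = A ⊔ B`. -/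
theorem gen_sup [Normal K Ω] {A B F : IntermediateField K Ω} [Normal K F] (hF : F ≤ A ⊔ B)
    (g : F ≃ₐ[K] F) (hA : ∀ (x : F), (x : Ω) ∈ A → (g x : Ω) = x)
    (hB : ∀ (x : F), (x : Ω) ∈ B → (g x : Ω) = x) (hAF : A ≤ F) (hBF : B ≤ F) : g = 1 := by
  obtain ⟨G, -, hG⟩ := res_surj F g
  have h := fix_sup G (M := A) (N := B) (fun x hx ↦ by
    have := hG ⟨x, hAF hx⟩
    rw [hA _ hx] at this
    exact this) (fun x hx ↦ by
    have := hG ⟨x, hBF hx⟩
    rw [hB _ hx] at this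
    exact this)
  ext x
  rw [← hG x]
  exact h x (hF x.2)

/-- The same for three fields. -/
theorem gen_sup3 [Normal K Ω] {A B C F : IntermediateField K Ω} [Normal K F]
    (hF : F ≤ A ⊔ (B ⊔ C)) (g : F ≃ₐ[K] F) (hA : ∀ (x : F), (x : Ω) ∈ A → (g x : Ω) = x)
    (hB : ∀ (x : F), (x : Ω) ∈ B → (g x : Ω) = x) (hC : ∀ (x : F), (x : Ω) ∈ C → (g x : Ω) = x)
    (hAF : A ≤ F) (hBF : B ≤ F) (hCF : C ≤ F) : g = 1 := by
  obtain ⟨G, -, hG⟩ := res_surj F g
  have h := fix_sup G (M := A) (N := B ⊔ C) (fun x hx ↦ by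
    have := hG ⟨x, hAF hx⟩
    rw [hA _ hx] at this
    exact this) (fix_sup G (M := B) (N := C) (fun x hx ↦ by
    have := hG ⟨x, hBF hx⟩
    rw [hB _ hx] at this
    exact this) (fun x hx ↦ by
    have := hG ⟨x, hCF hx⟩
    rw [hC _ hx] at this
    exact this))
  ext x
  rw [← hG x]
  exact h x (hF x.2)

end Pool.Agent.Helper48.PPB
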