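import Pool.Agent.Helper77.PPB.Goals
import Pool.Agent.Helper38.FD.Split
import Pool.Agent.Helper13.RL.GOO2
import Pool.Agent.Helper13.RL.GOO3
import Pool.Agent.Helper30.RL.SQR
import Pool.Agent.Helper8.PP.PSLG
import Pool.Agent.Helper48.PPB.GL1A

/-! PPB: B_GL1, a trivial twisted Selmer group implies the statement for all companions. -/

set_option autoImplicit false

namespace Pool.Agent.Helper48.PPB

open NumberField Polynomial Module IsDedekindDomain Pool.Agent.Helper51.SigLeo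
open Pool.Agent.Helper51.RP Pool.Agent.Helper42.RD Pool.Agent.Helper11.LE Pool.Agent.Helper11.PP
open Pool.Agent.Helper77.RL (Sqr SplitAt)
open Pool.Agent.Helper38.FD
open Pool.Agent.Helper77.PPB

/-- A `p`-th power is locally a `p`-th power. -/
theorem locPow_self {p : ℕ} {M : Type} [Field M] [NumberField M] (w : HeightOneSpectrum (𝓞 M))
    {y : M} (hy : y ≠ 0) : LocPow p w (y ^ p) := by
  refine ⟨y⁻¹, ?_⟩
  rw [inv_pow, mul_inv_cancel₀ (pow_ne_zero _ hy), sub_self, map_zero]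
  exact zero_lt_one

/-- The Selmer condition for `a` implies the one for `a c^p`. -/
theorem sel_congr {p : ℕ} (hp : p ≠ 0) {k : Type} [NormedField k] {K M : Type} [Field K] [Field M]
    [Algebra K M] {M₁ : Type} [Field M₁] [NumberField M₁] [Algebra M M₁] (L : IwasawaLog p k)
    (T : Set (M →+* k)) (P : (ZMod p)[X]) (δ : M ≃ₐ[K] M) {a b c : M₁} (hc : c ≠ 0) (hb : b ≠ 0)
    (hab : a = b * c ^ p) {x : Mˣ} (hx : Sel L T P δ a x) : Sel L T P δ b x := by
  refine ⟨hx.pol, fun W ↦ ?_, hx.sig⟩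
  refine Pool.Agent.Helper8.PP.locAt_of W hp (a := a) ?_ hb ?_ (hx.loc W)
  · rw [hab]
    exact mul_ne_zero hb (pow_ne_zero _ hc)
  · have e : a / b = c ^ p := by
      rw [hab]
      field_simp
    rw [e]
    exact locPow_self W hc

theorem b_gl1 (h1 : B_TRV) (h2 : B_PRM) (h3 : B_SPA) (h4 : B_NIN) (h5 : B_STB) (h6 : B_TOR)
    (h7 : B_CO1) : B_GL1 := by
  intro p hpf K _ _ ιinf ιp Lg S hcl M M₁ J M₂ _ _ _ _ _ _ _ _ hMM₂ hMM₁ hM₂ hcop hJ hJf χM hχM
    δ Φ P hδ hPhi hTor hnsp χ₀ ψ₁ ψ hχ₀ hF₁ hψl hψp ε α hε hεM₁ hOm hNice hnp hgen hSel E _ _ hcut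
    hE hgE hEf hEt hEu
  have hp := hpf.out
  have hfM : FiniteDimensional K M := FiniteDimensional.right ℚ K M
  have hfM₁ : FiniteDimensional K M₁ := FiniteDimensional.right ℚ K M₁
  have hfJ : FiniteDimensional K J := FiniteDimensional.right ℚ K J
  have hfE : FiniteDimensional K E := FiniteDimensional.right ℚ K E
  have hgΩ : IsGalois K (AlgebraicClosure K) := inferInstance
  -- the fields
  obtain ⟨L₀, hL₀⟩ : ∃ L₀ : IntermediateField K (AlgebraicClosure K), L₀ = J ⊔ E := ⟨_, rfl⟩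
  have hJL : J ≤ L₀ := by rw [hL₀]; exact le_sup_left
  have hEL : E ≤ L₀ := by rw [hL₀]; exact le_sup_right
  obtain ⟨n, hn⟩ := finrank_sup_pow hp hJ hE
  rw [← hL₀] at hn
  have hgL : IsGalois K L₀ := by rw [hL₀]; infer_instance
  have hfL : FiniteDimensional K L₀ := FiniteDimensional.of_finrank_pos (by
    rw [hn]; exact pow_pos hp.pos n)
  have hnfL : NumberField L₀ := NumberField.of_module_finite K L₀
  obtain ⟨F₁, hfF₁, hF₁c⟩ := hF₁
  have hgF₁ := isGalois_of_cutsOut hF₁c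
  obtain ⟨F, hF⟩ : ∃ F : IntermediateField K (AlgebraicClosure K), F = L₀ ⊔ F₁ := ⟨_, rfl⟩
  have hLF : L₀ ≤ F := by rw [hF]; exact le_sup_left
  have hF₁F : F₁ ≤ F := by rw [hF]; exact le_sup_right
  have hgF : IsGalois K F := by rw [hF]; infer_instance
  have hfF : FiniteDimensional K F := by rw [hF]; infer_instance
  have hdF : finrank K F = p ^ (n + 1) := by
    rw [hF]
    exact finrank_sup_cut hp hn ψ₁ hF₁c (fun g hg ↦ hψp g fun x hx ↦ hg x (hJL hx))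
      (by rw [hL₀]; exact hgE)
  obtain ⟨M', hM'⟩ : ∃ M' : IntermediateField K (AlgebraicClosure K), M' = M ⊔ L₀ := ⟨_, rfl⟩
  obtain ⟨N₂, hN₂⟩ : ∃ N₂ : IntermediateField K (AlgebraicClosure K), N₂ = M₁ ⊔ L₀ := ⟨_, rfl⟩
  have hMM' : M ≤ M' := by rw [hM']; exact le_sup_left
  have hLM' : L₀ ≤ M' := by rw [hM']; exact le_sup_right
  have hM₁N : M₁ ≤ N₂ := by rw [hN₂]; exact le_sup_left
  have hLN : L₀ ≤ N₂ := by rw [hN₂]; exact le_sup_right
  have hM₁M₂ : M₁ ≤ M₂ := by rw [hM₂]; exact le_sup_left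
  have hJM₂ : J ≤ M₂ := by rw [hM₂]; exact le_sup_right
  have hM₂N : M₂ ≤ N₂ := by rw [hM₂]; exact sup_le hM₁N (hJL.trans hLN)
  have hM'N : M' ≤ N₂ := by rw [hM']; exact sup_le (hMM₁.trans hM₁N) hLN
  have hfM' : FiniteDimensional K M' := by rw [hM']; infer_instance
  have hfN : FiniteDimensional K N₂ := by rw [hN₂]; infer_instance
  have hgM' : IsGalois K M' := by rw [hM']; infer_instance
  have hgN : IsGalois K N₂ := by rw [hN₂]; infer_instance
  have hgM₂ : IsGalois K M₂ := by rw [hM₂]; infer_instance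
  have hnfM' : NumberField M' := NumberField.of_module_finite K M'
  have hnfN : NumberField N₂ := NumberField.of_module_finite K N₂
  -- algebras
  let _ : Algebra M M₁ := (IntermediateField.inclusion hMM₁).toRingHom.toAlgebra
  let _ : Algebra M₁ M₂ := (IntermediateField.inclusion hM₁M₂).toRingHom.toAlgebra
  let _ : Algebra M M' := (IntermediateField.inclusion hMM').toRingHom.toAlgebra
  let _ : Algebra L₀ M' := (IntermediateField.inclusion hLM').toRingHom.toAlgebra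
  let _ : Algebra J M' := (IntermediateField.inclusion (hJL.trans hLM')).toRingHom.toAlgebra
  let _ : Algebra E M' := (IntermediateField.inclusion (hEL.trans hLM')).toRingHom.toAlgebra
  let _ : Algebra M N₂ := (IntermediateField.inclusion (hMM'.trans hM'N)).toRingHom.toAlgebra
  let _ : Algebra M₁ N₂ := (IntermediateField.inclusion hM₁N).toRingHom.toAlgebra
  let _ : Algebra L₀ N₂ := (IntermediateField.inclusion hLN).toRingHom.toAlgebra
  let _ : Algebra M₂ N₂ := (IntermediateField.inclusion hM₂N).toRingHom.toAlgebra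
  let _ : Algebra M' N₂ := (IntermediateField.inclusion hM'N).toRingHom.toAlgebra
  let _ : Algebra E N₂ := (IntermediateField.inclusion (hEL.trans hLN)).toRingHom.toAlgebra
  have tKMM₂ : IsScalarTower K M M₂ := IsScalarTower.of_algebraMap_eq fun x ↦ by
    apply Subtype.ext
    rw [hMM₂]
    rfl
  have tKMM' : IsScalarTower K M M' := IsScalarTower.of_algebraMap_eq fun x ↦ rfl
  have tKLM' : IsScalarTower K L₀ M' := IsScalarTower.of_algebraMap_eq fun x ↦ rfl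
  have tKJM' : IsScalarTower K J M' := IsScalarTower.of_algebraMap_eq fun x ↦ rfl
  have tKEM' : IsScalarTower K E M' := IsScalarTower.of_algebraMap_eq fun x ↦ rfl
  have tKM₁N : IsScalarTower K M₁ N₂ := IsScalarTower.of_algebraMap_eq fun x ↦ rfl
  have tKLN : IsScalarTower K L₀ N₂ := IsScalarTower.of_algebraMap_eq fun x ↦ rfl
  have tKM₂N : IsScalarTower K M₂ N₂ := IsScalarTower.of_algebraMap_eq fun x ↦ rfl
  have tKM'N : IsScalarTower K M' N₂ := IsScalarTower.of_algebraMap_eq fun x ↦ rfl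
  have tKEN : IsScalarTower K E N₂ := IsScalarTower.of_algebraMap_eq fun x ↦ rfl
  have tMM₁N : IsScalarTower M M₁ N₂ := IsScalarTower.of_algebraMap_eq fun x ↦ rfl
  have tMM'N : IsScalarTower M M' N₂ := IsScalarTower.of_algebraMap_eq fun x ↦ rfl
  have tLM'N : IsScalarTower L₀ M' N₂ := IsScalarTower.of_algebraMap_eq fun x ↦ rfl
  have tM₁M₂N : IsScalarTower M₁ M₂ N₂ := IsScalarTower.of_algebraMap_eq fun x ↦ rfl
  have tMM₂N : IsScalarTower M M₂ N₂ := IsScalarTower.of_algebraMap_eq fun x ↦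
    Subtype.ext (hMM₂ x).symm
  -- the squares
  have hcM : (finrank K M).Coprime p :=
    hcop.coprime_dvd_left (IntermediateField.finrank_dvd_of_le_right hMM₁)
  have hq1 : Sqr p n K M L₀ M' :=
    Pool.Agent.Helper13.RL.sqr_sup' hM' (fun x ↦ rfl) (fun x ↦ rfl) inferInstance hgL hcM hn
  have hq2 : Sqr p n K M₁ L₀ N₂ :=
    Pool.Agent.Helper13.RL.sqr_sup' hN₂ (fun x ↦ rfl) (fun x ↦ rfl) inferInstance hgL hcop hn
  obtain ⟨r1, r2, r3, r4, r5⟩ := Pool.Agent.Helper30.RL.l_sqr p n K M L₀ M' hq1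
  obtain ⟨s1, s2, s3, s4, -⟩ := Pool.Agent.Helper30.RL.l_sqr p n K M₁ L₀ N₂ hq2
  have hcN : (finrank M' N₂).Coprime p := by
    have e1 : finrank L₀ M' * finrank M' N₂ = finrank L₀ N₂ := Module.finrank_mul_finrank L₀ M' N₂
    rw [s2] at e1
    exact hcop.coprime_dvd_left (Dvd.intro_left _ e1)
  have hgM'N : IsGalois M' N₂ := IsGalois.tower_top_of_isGalois K M' N₂
  -- the automorphism
  obtain ⟨f, hf1, hf2⟩ := r5 δ 1
  obtain ⟨δL, hδL⟩ : ∃ δL : M' ≃ₐ[L₀] M', ∀ x, δL x = f x :=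
    ⟨AlgEquiv.ofRingEquiv (f := (f : M' ≃+* M')) fun y ↦ hf2 y, fun x ↦ rfl⟩
  have hδL' : ∀ x : M, δL (algebraMap M M' x) = algebraMap M M' (δ x) := fun x ↦ by
    rw [hδL, hf1]
  have hTorL : TorOK P δL := h6 p K M L₀ M' n r1 δ δL P hδL' hTor
  have hδm : δ ^ finrank K M = 1 := by rw [← hδ, pow_orderOf_eq_one]
  -- the hypotheses of `B_TRV`
  have hspl : ∀ τ' : M' →+* ℂ_[p], SplitAt M τ' := by
    refine h3 p K M J E M' ?_ hJf hEf
    intro g g1 g2 g3
    refine gen_sup3 (A := M) (B := J) (C := E) (by rw [hM', hL₀]) g ?_ ?_ ?_ hMM'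
      (hJL.trans hLM') (hEL.trans hLM')
    · intro x hx
      exact congrArg Subtype.val (g1 ⟨x, hx⟩)
    · intro x hx
      exact congrArg Subtype.val (g2 ⟨x, hx⟩)
    · intro x hx
      exact congrArg Subtype.val (g3 ⟨x, hx⟩)
  have hCond : CondW p K M M₂ N₂ (α : M₂) := by
    refine h2 p K M M₂ E N₂ ?_ (α : M₂) hEt hEu
    intro g g1 g2
    refine gen_sup (A := M₂) (B := E) ?_ g ?_ ?_ hM₂N (hEL.trans hLN)
    · rw [hN₂, hL₀]
      exact sup_le (hM₁M₂.trans le_sup_left) (sup_le (hJM₂.trans le_sup_left) le_sup_right)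
    · intro x hx
      exact congrArg Subtype.val (g1 ⟨x, hx⟩)
    · intro x hx
      exact congrArg Subtype.val (g2 ⟨x, hx⟩)
  obtain ⟨ε₁, hε₁⟩ : ∃ ε₁ : M₁, algebraMap M₁ M₂ ε₁ = ε := ⟨⟨ε, hεM₁⟩, rfl⟩
  have hε₁p : IsPrimitiveRoot ε₁ p := by
    rw [← hε₁] at hε
    exact IsPrimitiveRoot.of_map_of_injective (f := algebraMap M₁ M₂) hε (RingHom.injective _)
  have hst := h5 p n K M M₁ L₀ M' M₂ N₂ hq1 hq2 ε₁ (α : M₂) hε₁p (by rw [hε₁]; exact hOm)
  have hne : Nonempty (AlgebraicClosure ℚ →+* ℂ_[p]) :=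
    Pool.Agent.Helper50.RS.nonempty_hom ℚ ℂ_[p]
  have hSelN := h1 p ℂ_[p] hne Lg n (finrank K M) K M L₀ M' M₂ N₂ hq1 δ δL P hPhi.irr hδm hδL'
    hTorL hnsp (TSet ιinf ιp S) (fun τ' _ ↦ hspl τ') (α : M₂) α.ne_zero hst hCond hSel
  -- the element
  obtain ⟨b, y, hb3, hby⟩ := hNice
  obtain ⟨s, hs⟩ := IsAlgClosed.exists_pow_nat_eq (((b : M₂) : AlgebraicClosure K)) hp.pos
  have hy0 : ((y : M₂) : AlgebraicClosure K) ≠ 0 := fun h ↦ y.ne_zero (Subtype.ext h)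
  have hby' : ((b : M₂) : AlgebraicClosure K) =
      ((α : M₂) : AlgebraicClosure K) * ((y : M₂) : AlgebraicClosure K) ^ p := by
    rw [hby]
    rfl
  have hsy : (s / ((y : M₂) : AlgebraicClosure K)) ^ p = ((α : M₂) : AlgebraicClosure K) := by
    rw [div_pow, hs, hby', mul_div_assoc, div_self (pow_ne_zero _ hy0), mul_one]
  have hsM₂ : s ∉ M₂ := by
    intro hmem
    have hmem' : s / ((y : M₂) : AlgebraicClosure K) ∈ M₂ := M₂.div_mem hmem (y : M₂).2
    have e1 : (⟨_, hmem'⟩ : M₂) ^ p = (α : M₂) := Subtype.ext hsy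
    have e2 : (⟨_, hmem'⟩ : M₂) ≠ 0 := by
      intro h0
      rw [h0, zero_pow hp.ne_zero] at e1
      exact α.ne_zero e1.symm
    exact hnp ⟨Units.mk0 _ e2, Units.ext (by
      rw [Units.val_pow_eq_pow_val, Units.val_mk0, e1])⟩
  have hgen' : ∀ g : AlgebraicClosure K ≃ₐ[K] AlgebraicClosure K, (∀ x ∈ M₂, g x = x) →
      ψ₁ g = 1 → g s = s := by
    intro g hg hg1
    have e1 := hgen _ hsy g hg hg1
    rw [map_div₀, hg _ (y : M₂).2] at e1
    exact (div_left_inj' hy0).1 e1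
  have hsN : s ∉ M₁ ⊔ L₀ := h4 p K M₁ J L₀ M₂ hM₂ hJL hcop ψ₁ ⟨F₁, hfF₁, hF₁c⟩ hψl hψp s
    (by rw [hs]; exact (b : M₂).2) hsM₂ hgen' (by rw [hL₀]; exact hgE)
  obtain ⟨a, ha, ha3⟩ : ∃ a : 𝓞 N₂, (a : N₂) = algebraMap M₂ N₂ (b : M₂) ∧
      (p : 𝓞 N₂) ^ 3 ∣ a - 1 := by
    refine ⟨RingOfIntegers.mapRingHom (algebraMap M₂ N₂) b, rfl, ?_⟩
    have e1 := map_dvd (RingOfIntegers.mapRingHom (algebraMap M₂ N₂)) hb3
    rwa [map_pow, map_natCast, map_sub, map_one] at e1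
  have hb0 : (b : M₂) ≠ 0 := by
    rw [hby]
    exact mul_ne_zero α.ne_zero (pow_ne_zero _ y.ne_zero)
  have haN0 : (a : N₂) ≠ 0 := by
    rw [ha]
    exact (_root_.map_ne_zero _).2 hb0
  have ha0 : a ≠ 0 := by
    rintro rfl
    exact haN0 rfl
  have haα : (a : N₂) = algebraMap M₂ N₂ (α : M₂) * (algebraMap M₂ N₂ (y : M₂)) ^ p := by
    rw [ha, hby, map_mul, map_pow]
  have hSel' : ∀ x : (M')ˣ, Sel Lg (above (above (TSet ιinf ιp S) : Set (L₀ →+* ℂ_[p])) :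
      Set (M' →+* ℂ_[p])) P δL (a : N₂) x → Pw p x := by
    intro x hx
    exact hSelN x (sel_congr hp.ne_zero Lg _ P δL ((_root_.map_ne_zero _).2 y.ne_zero)
      ((_root_.map_ne_zero _).2 α.ne_zero) haα hx)
  -- the characters
  have hψ₁F : ∀ g : AlgebraicClosure K ≃ₐ[K] AlgebraicClosure K, (∀ x ∈ F, g x = x) → ψ₁ g = 1 :=
    fun g hg ↦ (hF₁c g).2 fun x hx ↦ hg x (hF₁F hx)
  have hψF : ∀ g : AlgebraicClosure K ≃ₐ[K] AlgebraicClosure K, (∀ x ∈ F, g x = x) → ψ g = 1 :=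
    fun g hg ↦ (hcut g).2 fun x hx ↦ hg x (hLF (hEL hx))
  obtain ⟨η, hη⟩ := exists_desc (χ := ψ₁ * ψ) (H := F) fun g hg ↦ by
    rw [MonoidHom.mul_apply, hψ₁F g hg, hψF g hg, one_mul]
  obtain ⟨H, fH, hH⟩ := exists_cutsOut (χ₀ * ψ₁ * ψ) (M ⊔ F) (by
    intro g hg
    have a1 : χ₀ g = 1 := by
      rw [hχ₀ g, Pool.Agent.Helper13.RL.res_one_iff.2 fun x hx ↦
        hg x ((le_sup_left : M ≤ M ⊔ F) hx), map_one]
    have a2 : ψ₁ g = 1 := hψ₁F g fun x hx ↦ hg x ((le_sup_right : F ≤ M ⊔ F) hx)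
    have a3 : ψ g = 1 := hψF g fun x hx ↦ hg x ((le_sup_right : F ≤ M ⊔ F) hx)
    rw [MonoidHom.mul_apply, MonoidHom.mul_apply, a1, a2, a3, one_mul, one_mul])
  have jH := isGalois_of_cutsOut hH
  obtain ⟨χ', hinj, hχ'⟩ := exists_faithful hH
  have r : ∀ (g : AlgebraicClosure K ≃ₐ[K] AlgebraicClosure K)
      (X : IntermediateField K (AlgebraicClosure K)) [IsGalois K X],
      Restricts (algebraMap X (AlgebraicClosure K)) g (AlgEquiv.restrictNormalHom X g) :=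
    fun g X _ x ↦ (AlgEquiv.restrictNormal_commutes g X x).symm
  refine ⟨H, fH, hH, χ', hχ', ?_⟩
  refine h7 p K ιinf ιp Lg S hcl M χM hχM hcM δ Φ P hδ hPhi hTor n L₀ F M' N₂ (fun x ↦ rfl)
    (fun x ↦ rfl) (fun x ↦ rfl) hLF hn hdF hM' hgM'N hcN δL hδL' (algebraMap M₂ N₂ ε) a
    (hε.map_of_injective (algebraMap M₂ N₂).injective) ha0 ha3 s ?_ (by rw [hN₂]; exact hsN) ?_
    hSel' H χ' η hinj ?_ ?_
  · rw [ha, hs]
    rfl
  · intro g g1 g2
    exact hgen' g (fun x hx ↦ g2 x (hM₂N hx)) (hψ₁F g g1)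
  · obtain ⟨g, hg, hg1⟩ := hgE
    refine ⟨AlgEquiv.restrictNormalHom F g, fun x hx ↦ ?_, ?_⟩
    · apply Subtype.ext
      rw [AlgEquiv.restrictNormalHom_apply]
      rw [hL₀] at hx
      exact hg _ hx
    · rw [← hη g _ (r g F), MonoidHom.mul_apply,
        (hcut g).2 fun x hx ↦ hg x ((le_sup_right : E ≤ J ⊔ E) hx), mul_one]
      exact hg1
  · intro g
    rw [← hχ' g _ (r g H), ← hη g _ (r g F), ← hχ₀ g, MonoidHom.mul_apply, MonoidHom.mul_apply,
      MonoidHom.mul_apply, mul_assoc]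

end Pool.Agent.Helper48.PPB
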